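import Pool.Agent.D0H83.AC.Stm5

set_option autoImplicit false

/-!
# Project AC, module E12: the torsion of the cokernel of the Laplacian of a cycle
-/

namespace Pool.Agent.D0H62.AC

open Matrix Finset Pool.Agent.Q181.TG Pool.Agent.Helper993.FK Pool.Agent.D0H83.AC Pool.Agent.Q151.TG

/-- the generator -/
abbrev tt : Multiplicative ℤ := Multiplicative.ofAdd (1 : ℤ)

section
variable (X : Type) [Fintype X] [MulAction (Multiplicative ℤ) X]

open Classical in
theorem reg_cyc (p q : X × Fin 1) :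
    reg X cyc p q = 2 * (if q.1 = p.1 then 1 else 0) - (if tt • q.1 = p.1 then 1 else 0) -
      (if tt⁻¹ • q.1 = p.1 then 1 else 0) := by
  rw [reg_eq]
  have h0 : cyc p.2 q.2 = MonoidAlgebra.single (1 : Multiplicative ℤ) (2 : ℤ) -
      MonoidAlgebra.single tt 1 - MonoidAlgebra.single tt⁻¹ 1 := rfl
  rw [h0, map_sub, map_sub, Matrix.sub_apply, Matrix.sub_apply, pr_apply, pr_apply, pr_apply]
  have h1 : ∀ (h : Multiplicative ℤ) (c : ℤ),
      ((MonoidAlgebra.single h c : MonoidAlgebra ℤ (Multiplicative ℤ)).coeff.sum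
        fun g x => if g • q.1 = p.1 then x else 0) = if h • q.1 = p.1 then c else 0 := by
    intro h c
    exact Finsupp.sum_single_index (by simp)
  rw [h1, h1, h1, one_smul]
  split_ifs <;> ring

open Classical in
theorem row_cyc (x : X) :
    reg X cyc (x, 0) = (2 : ℤ) • Pi.single (x, (0 : Fin 1)) (1 : ℤ) - Pi.single (tt⁻¹ • x, (0 : Fin 1)) (1 : ℤ) -
      Pi.single (tt • x, (0 : Fin 1)) (1 : ℤ) := by
  funext q
  obtain ⟨y, j⟩ := q
  have hj : j = 0 := Subsingleton.elim _ _
  subst hj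
  rw [reg_cyc]
  have e1 : (tt • y = x) ↔ y = tt⁻¹ • x := by
    rw [eq_inv_smul_iff]
  have e2 : (tt⁻¹ • y = x) ↔ y = tt • x := by
    rw [inv_smul_eq_iff]
  simp only [Pi.sub_apply, Pi.smul_apply, Pi.single_apply, smul_eq_mul, Prod.mk.injEq, and_true, e1, e2]

/-- the class of a point -/
noncomputable def cl (x : X) : Cok (reg X cyc) :=
  open Classical in
  (Submodule.span ℤ (Set.range (reg X cyc))).mkQ (Pi.single (x, (0 : Fin 1)) (1 : ℤ))

theorem cl_rel (x : X) : (2 : ℤ) • cl X x = cl X (tt⁻¹ • x) + cl X (tt • x) := by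
  classical
  have h : (Submodule.span ℤ (Set.range (reg X cyc))).mkQ (reg X cyc (x, 0)) = 0 := by
    rw [Submodule.mkQ_apply, Submodule.Quotient.mk_eq_zero]
    exact Submodule.subset_span ⟨_, rfl⟩
  rw [row_cyc, map_sub, map_sub, map_smul] at h
  have h2 : (2 : ℤ) • cl X x - cl X (tt⁻¹ • x) - cl X (tt • x) = 0 := by
    unfold cl
    convert h
  rw [sub_sub, sub_eq_zero] at h2
  exact h2

theorem cl_pow (x : X) (k : ℤ) :
    cl X ((tt ^ k : Multiplicative ℤ) • x) = cl X x + k • (cl X (tt • x) - cl X x) := by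
  have key : ∀ k : ℤ, cl X ((tt ^ (k + 1) : Multiplicative ℤ) • x) - cl X ((tt ^ k : Multiplicative ℤ) • x) =
      cl X ((tt ^ k : Multiplicative ℤ) • x) - cl X ((tt ^ (k - 1) : Multiplicative ℤ) • x) := by
    intro k
    have h := cl_rel X ((tt ^ k : Multiplicative ℤ) • x)
    rw [smul_smul, smul_smul] at h
    have e1 : tt⁻¹ * tt ^ k = (tt ^ (k - 1) : Multiplicative ℤ) := by
      rw [_root_.zpow_sub_one, mul_comm]
    have e2 : tt * tt ^ k = (tt ^ (k + 1) : Multiplicative ℤ) := by
      rw [_root_.zpow_add_one, mul_comm]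
    rw [e1, e2, two_zsmul] at h
    rw [sub_eq_sub_iff_add_eq_add, h, add_comm]
  have step : ∀ k : ℤ, cl X ((tt ^ (k + 1) : Multiplicative ℤ) • x) - cl X ((tt ^ k : Multiplicative ℤ) • x) =
      cl X (tt • x) - cl X x := by
    intro k
    induction k using Int.induction_on with
    | zero => simp
    | succ n ih =>
      rw [key ((n : ℤ) + 1)]
      rw [add_sub_cancel_right]
      exact ih
    | pred n ih =>
      have := key (-(n : ℤ))
      rw [sub_add_cancel]
      rw [← this]
      exact ih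
  induction k using Int.induction_on with
  | zero => simp
  | succ n ih =>
    have := step (n : ℤ)
    rw [sub_eq_iff_eq_add] at this
    rw [this, ih, add_smul, one_smul]
    abel
  | pred n ih =>
    have := step (-(n : ℤ) - 1)
    rw [sub_add_cancel] at this
    have h2 : cl X ((tt ^ (-(n : ℤ) - 1) : Multiplicative ℤ) • x) =
      cl X ((tt ^ (-(n : ℤ)) : Multiplicative ℤ) • x) - (cl X (tt • x) - cl X x) := by
      rw [← this]; abel
    rw [h2, ih, sub_smul, one_smul]
    abel

/-- the sum of the coefficients -/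
noncomputable def sm : Cok (reg X cyc) →ₗ[ℤ] ℤ :=
  (Submodule.span ℤ (Set.range (reg X cyc))).liftQ
    (∑ p : X × Fin 1, (LinearMap.proj p : (X × Fin 1 → ℤ) →ₗ[ℤ] ℤ)) (by
      classical
      rw [Submodule.span_le]
      rintro _ ⟨⟨x, i⟩, rfl⟩
      have hi : i = 0 := Subsingleton.elim _ _
      subst hi
      rw [SetLike.mem_coe, LinearMap.mem_ker, row_cyc]
      simp only [LinearMap.coe_sum, Finset.sum_apply, LinearMap.proj_apply, Pi.sub_apply, Pi.smul_apply,
        Finset.sum_sub_distrib, ← Finset.smul_sum]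
      simp)

theorem sm_mk (v : X × Fin 1 → ℤ) :
    sm X ((Submodule.span ℤ (Set.range (reg X cyc))).mkQ v) = ∑ p, v p := by
  unfold sm
  rw [Submodule.mkQ_apply, Submodule.liftQ_apply]
  simp

theorem tc_le (x0 : X) (N : ℕ) (hN : 1 ≤ N) (hx : (tt ^ (N : ℤ) : Multiplicative ℤ) • x0 = x0)
    (htr : ∀ x : X, ∃ k : ℤ, (tt ^ k : Multiplicative ℤ) • x0 = x) :
    tc (Cok (reg X cyc)) ≤ N := by
  classical
  choose k hk using htr
  set d : Cok (reg X cyc) := cl X (tt • x0) - cl X x0 with hd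
  have hNd : (N : ℤ) • d = 0 := by
    have := cl_pow X x0 (N : ℤ)
    rw [hx] at this
    rw [hd]
    exact (left_eq_add.mp this)
  have hcl : ∀ x, cl X x = cl X x0 + k x • d := by
    intro x
    conv_lhs => rw [← hk x]
    exact cl_pow X x0 (k x)
  have hall : ∀ v : X × Fin 1 → ℤ, (Submodule.span ℤ (Set.range (reg X cyc))).mkQ v =
      (∑ p, v p) • cl X x0 + (∑ p, v p * k p.1) • d := by
    intro v
    have h1 : v = ∑ p, v p • (Pi.single p (1 : ℤ) : X × Fin 1 → ℤ) := by
      funext q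
      simp [Finset.sum_apply, Pi.single_apply]
    conv_lhs => rw [h1]
    rw [map_sum, Finset.sum_smul, Finset.sum_smul, ← Finset.sum_add_distrib]
    refine Finset.sum_congr rfl fun p _ => ?_
    obtain ⟨x, i⟩ := p
    have hi : i = 0 := Subsingleton.elim _ _
    subst hi
    rw [map_smul]
    have h2 : (Submodule.span ℤ (Set.range (reg X cyc))).mkQ (Pi.single (x, (0 : Fin 1)) (1 : ℤ)) = cl X x := by
      unfold cl
      rfl
    rw [h2, hcl x, smul_add, smul_smul]
  have htor : ∀ e : Cok (reg X cyc), e ∈ AddCommGroup.torsion (Cok (reg X cyc)) →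
      ∃ b : Fin N, e = (b : ℕ) • d := by
    intro e he
    obtain ⟨v, rfl⟩ := Submodule.mkQ_surjective _ e
    have hs : ∑ p, v p = 0 := by
      have he' := he
      obtain ⟨n, hn, hn2⟩ := (isOfFinAddOrder_iff_nsmul_eq_zero).mp he'
      have h3 := congrArg (sm X) hn2
      rw [map_nsmul, sm_mk, map_zero] at h3
      rw [nsmul_eq_mul] at h3
      rcases mul_eq_zero.mp h3 with h4 | h4
      · exact absurd (by exact_mod_cast h4 : n = 0) hn.ne'
      · exact h4
    rw [hall v, hs, zero_smul, zero_add]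
    set m : ℤ := ∑ p, v p * k p.1 with hm
    have hNpos : (0 : ℤ) < N := by exact_mod_cast hN
    have h5 : 0 ≤ m % N := Int.emod_nonneg _ hNpos.ne'
    have h6 : m % N < N := Int.emod_lt_of_pos _ hNpos
    refine ⟨⟨(m % N).toNat, by omega⟩, ?_⟩
    have h7 : (((m % N).toNat : ℕ) : ℤ) = m % N := Int.toNat_of_nonneg h5
    change m • d = (m % N).toNat • d
    rw [← natCast_zsmul, h7]
    conv_lhs => rw [← Int.emod_add_mul_ediv m N, add_smul, mul_comm, mul_smul, hNd, smul_zero, add_zero]
  have : Nonempty (Fin N) := ⟨⟨0, by omega⟩⟩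
  choose! b hb using htor
  have hinj : Function.Injective (fun e : AddCommGroup.torsion (Cok (reg X cyc)) =>
      b e.1) := by
    intro e e' h
    apply Subtype.ext
    have h' : b e.1 = b e'.1 := h
    rw [hb e.1 e.2, h', ← hb e'.1 e'.2]
  have := Nat.card_le_card_of_injective _ hinj
  rw [Nat.card_fin] at this
  exact this

end

/-- (E12 CYCU) -/
theorem t_cycu : S_cycu := by
  intro N hN _
  refine tc_le _ (QuotientGroup.mk (1 : Multiplicative ℤ)) N hN ?_ ?_
  · rw [MulAction.Quotient.smul_mk]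
    apply Eq.symm
    rw [QuotientGroup.eq]
    unfold sbg
    rw [inv_one, one_mul, smul_eq_mul, mul_one]
    refine Subgroup.mem_zpowers_iff.mpr ⟨1, ?_⟩
    rw [zpow_one, ← ofAdd_zsmul]
    simp
  · intro x
    obtain ⟨g, rfl⟩ := QuotientGroup.mk_surjective x
    refine ⟨Multiplicative.toAdd g, ?_⟩
    rw [MulAction.Quotient.smul_mk, smul_eq_mul, mul_one, ← ofAdd_zsmul]
    simp

end Pool.Agent.D0H62.AC
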